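import Pool.Agent.H754Z.TA.Str

set_option autoImplicit false

namespace Pool.Agent.H754Z.TA

open MeasureTheory Filter Topology Pointwise

universe u v

namespace P7ab

lemma integral_mem_closure {F : Type v} [NormedAddCommGroup F] [NormedSpace ℂ F] [CompleteSpace F]
    (S : Submodule ℂ F) (f : ℝ → F) (hf : Integrable f) (hS : ∀ t, f t ∈ S) :
    ∫ t, f t ∈ S.topologicalClosure := by
  have hcl : IsClosed (S.topologicalClosure : Set F) := S.isClosed_topologicalClosure
  have h := (S.topologicalClosure.mkQL).integral_comp_comm hf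
  have h0 : ∀ t, S.topologicalClosure.mkQL (f t) = 0 := fun t => by
    rw [Submodule.mkQL_apply, Submodule.mkQ_apply, Submodule.Quotient.mk_eq_zero]
    exact S.le_topologicalClosure (hS t)
  simp only [h0, integral_zero] at h
  rw [Submodule.mkQL_apply, Submodule.mkQ_apply, eq_comm, Submodule.Quotient.mk_eq_zero] at h
  exact h

/-- the base of the kernel -/
noncomputable def z (a y t : ℝ) : ℂ := (t : ℂ) - a + Complex.I * y

lemma normSq_z (a y t : ℝ) : ‖z a y t‖ ^ 2 = (t - a) ^ 2 + y ^ 2 := by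
  rw [Complex.sq_norm, Complex.normSq_apply]
  simp [z]; ring

lemma z_ne (a : ℝ) {y : ℝ} (hy : 0 < y) (t : ℝ) : z a y t ≠ 0 := by
  intro h
  have := normSq_z a y t
  rw [h] at this
  simp at this
  nlinarith [sq_nonneg (t - a)]

lemma le_norm_z (a : ℝ) {y : ℝ} (t : ℝ) : y ≤ ‖z a y t‖ := by
  apply le_trans (le_abs_self y)
  apply abs_le_of_sq_le_sq' _ (norm_nonneg _) |>.2 |> fun h => by simpa using h
  rw [normSq_z, sq_abs]
  nlinarith [sq_nonneg (t - a)]

lemma norm_k2 (a : ℝ) {m y : ℝ} (hm : 0 < m) (hy : m ≤ y) (t : ℝ) :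
    ‖(z a y t ^ 2)⁻¹‖ ≤ (1 + 1 / m ^ 2) * (1 + (t - a) ^ 2)⁻¹ := by
  rw [norm_inv, norm_pow, normSq_z, ← div_eq_mul_inv, inv_eq_one_div,
    div_le_div_iff₀ (by nlinarith [sq_nonneg (t - a)]) (by positivity)]
  have h1 : m ^ 2 ≤ y ^ 2 := pow_le_pow_left₀ hm.le hy 2
  have h2 : 1 ≤ 1 / m ^ 2 * y ^ 2 := by
    rw [one_div, ← div_eq_inv_mul, le_div_iff₀ (by positivity)]; linarith
  have h3 : 0 ≤ 1 / m ^ 2 * (t - a) ^ 2 := by positivity
  nlinarith [sq_nonneg y]

lemma norm_k3 (a : ℝ) {m y : ℝ} (hm : 0 < m) (hy : m ≤ y) (t : ℝ) :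
    ‖(z a y t ^ 3)⁻¹‖ ≤ 1 / m * ((1 + 1 / m ^ 2) * (1 + (t - a) ^ 2)⁻¹) := by
  have h1 : (z a y t ^ 3)⁻¹ = (z a y t)⁻¹ * (z a y t ^ 2)⁻¹ := by
    rw [← mul_inv]; ring
  rw [h1, norm_mul]
  refine mul_le_mul ?_ (norm_k2 a hm hy t) (norm_nonneg _) (by positivity)
  rw [norm_inv, one_div]
  exact inv_anti₀ hm (hy.trans (le_norm_z a t))

lemma integrable_w (a K : ℝ) : Integrable fun t : ℝ => K * (1 + (t - a) ^ 2)⁻¹ :=
  (integrable_inv_one_add_sq.comp_sub_right a).const_mul K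

lemma cont_k (a : ℝ) {y : ℝ} (hy : 0 < y) (n : ℕ) : Continuous fun t => (z a y t ^ n)⁻¹ := by
  refine Continuous.inv₀ ?_ fun t => pow_ne_zero n (z_ne a hy t)
  unfold z; fun_prop

lemma integrable_k2 {E : Type v} [NormedAddCommGroup E] [NormedSpace ℂ E] (a : ℝ) {y : ℝ}
    (hy : 0 < y) (c : ℝ → E) (hc : Continuous c) (B : ℝ) (hB : ∀ t, ‖c t‖ ≤ B) :
    Integrable fun t => (z a y t ^ 2)⁻¹ • c t := by
  refine (integrable_w a (B * (1 + 1 / y ^ 2))).mono'
    ((cont_k a hy 2).smul hc).aestronglyMeasurable (ae_of_all _ fun t => ?_)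
  rw [norm_smul, mul_comm, mul_assoc]
  exact mul_le_mul (hB t) (norm_k2 a hy le_rfl t) (norm_nonneg _) ((norm_nonneg _).trans (hB t))

lemma integrable_k3 {E : Type v} [NormedAddCommGroup E] [NormedSpace ℂ E] (a : ℝ) {y : ℝ}
    (hy : 0 < y) (c : ℝ → E) (hc : Continuous c) (B : ℝ) (hB : ∀ t, ‖c t‖ ≤ B) :
    Integrable fun t => (z a y t ^ 3)⁻¹ • c t := by
  refine (integrable_w a (B * (1 / y * (1 + 1 / y ^ 2)))).mono'
    ((cont_k a hy 3).smul hc).aestronglyMeasurable (ae_of_all _ fun t => ?_)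
  rw [norm_smul, mul_comm, mul_assoc, mul_assoc]
  exact mul_le_mul (hB t) (norm_k3 a hy le_rfl t) (norm_nonneg _) ((norm_nonneg _).trans (hB t))

lemma deriv_k {f : ℝ → ℂ} {f' : ℂ} {x : ℝ} (hf : HasDerivAt f f' x) (h0 : f x ≠ 0) :
    HasDerivAt (fun s => (f s ^ 2)⁻¹) (-2 * f' * (f x ^ 3)⁻¹) x := by
  have h := (hf.fun_pow 2).fun_inv (pow_ne_zero 2 h0)
  refine h.congr_deriv ?_
  simp only [Nat.cast_ofNat, Nat.add_one_sub_one, pow_one]
  field_simp

lemma deriv_z_t (a y t : ℝ) : HasDerivAt (fun t => z a y t) 1 t := by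
  unfold z
  simpa using ((Complex.ofRealCLM.hasDerivAt (x := t)).sub_const (a : ℂ)).add_const
    (Complex.I * y)

lemma deriv_z_y (a y t : ℝ) : HasDerivAt (fun y => z a y t) Complex.I y := by
  unfold z
  simpa using ((Complex.ofRealCLM.hasDerivAt (x := y)).const_mul Complex.I).const_add
    ((t : ℂ) - a)

lemma hasDerivAt_F {E : Type v} [NormedAddCommGroup E] [NormedSpace ℂ E] [CompleteSpace E]
    (c c' : ℝ → E) (hd : ∀ t, HasDerivAt c (c' t) t) (hc' : Continuous c') (B : ℝ)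
    (hB : ∀ t, ‖c t‖ ≤ B) (hB' : ∀ t, ‖c' t‖ ≤ B) (a : ℝ) {y : ℝ} (hy : 0 < y) :
    HasDerivAt (fun y => ∫ t, (z a y t ^ 2)⁻¹ • c t)
      ((-Complex.I) • ∫ t, (z a y t ^ 2)⁻¹ • c' t) y := by
  have hc : Continuous c := continuous_iff_continuousAt.mpr fun t => (hd t).continuousAt
  have hB0 : 0 ≤ B := (norm_nonneg _).trans (hB 0)
  have hs : Set.Ioi (y / 2) ∈ 𝓝 y := Ioi_mem_nhds (by linarith)
  have h := (hasDerivAt_integral_of_dominated_loc_of_deriv_le (μ := volume)
    (F := fun y t => (z a y t ^ 2)⁻¹ • c t)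
    (F' := fun y t => (-2 * Complex.I * (z a y t ^ 3)⁻¹) • c t)
    (bound := fun t => (2 * (1 / (y / 2) * (1 + 1 / (y / 2) ^ 2)) * B) * (1 + (t - a) ^ 2)⁻¹)
    hs ?_ (integrable_k2 a hy c hc B hB) ?_ ?_ (integrable_w a _) ?_).2
  · convert h using 1
    have h0 := integral_eq_zero_of_hasDerivAt_of_integrable
      (f := fun t => (z a y t ^ 2)⁻¹ • c t)
      (f' := fun t => (z a y t ^ 2)⁻¹ • c' t + (-2 : ℂ) • (z a y t ^ 3)⁻¹ • c t)
      (fun t => by
        have := (deriv_k (deriv_z_t a y t) (z_ne a hy t)).fun_smul (hd t)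
        convert this using 2
        rw [mul_one, mul_smul])
      ((integrable_k2 a hy c' hc' B hB').add ((integrable_k3 a hy c hc B hB).smul (-2 : ℂ)))
      (integrable_k2 a hy c hc B hB)
    have hi3 : Integrable fun t => (-2 : ℂ) • (z a y t ^ 3)⁻¹ • c t :=
      (integrable_k3 a hy c hc B hB).smul (-2 : ℂ)
    rw [integral_add (integrable_k2 a hy c' hc' B hB') hi3, integral_smul] at h0
    simp only [mul_smul _ (z a y _ ^ 3)⁻¹, integral_smul]
    rw [eq_neg_of_add_eq_zero_left h0, ← neg_smul, smul_smul]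
    congr 1
    ring
  · filter_upwards [Ioi_mem_nhds hy] with x hx
    exact ((cont_k a hx 2).smul hc).aestronglyMeasurable
  · exact ((continuous_const.mul (cont_k a hy 3)).smul hc).aestronglyMeasurable
  · refine ae_of_all _ fun t x hx => ?_
    have h3 := norm_k3 a (m := y / 2) (by linarith) (le_of_lt hx) t
    rw [norm_smul, norm_mul, norm_mul, norm_neg, Complex.norm_I, Complex.norm_two, mul_one]
    calc 2 * ‖(z a x t ^ 3)⁻¹‖ * ‖c t‖
        ≤ 2 * (1 / (y / 2) * ((1 + 1 / (y / 2) ^ 2) * (1 + (t - a) ^ 2)⁻¹)) * B := by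
          gcongr
          exact hB t
      _ = _ := by ring
  · refine ae_of_all _ fun t x hx => ?_
    have hx0 : 0 < x := lt_trans (by linarith) hx
    exact (deriv_k (deriv_z_y a x t) (z_ne a hx0 t)).smul_const (c t)

lemma tendsto_F {E : Type v} [NormedAddCommGroup E] [NormedSpace ℂ E]
    (c : ℝ → E) (hc : Continuous c) (B : ℝ) (hB : ∀ t, ‖c t‖ ≤ B) (a : ℝ) :
    Tendsto (fun y => ∫ t, (z a y t ^ 2)⁻¹ • c t) atTop (𝓝 0) := by
  have h := tendsto_integral_filter_of_dominated_convergence (μ := volume) (l := atTop)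
    (F := fun y t => (z a y t ^ 2)⁻¹ • c t) (f := fun _ => (0 : E))
    (fun t => (B * (1 + 1 / 1 ^ 2)) * (1 + (t - a) ^ 2)⁻¹) ?_ ?_ (integrable_w a _) ?_
  · simpa using h
  · filter_upwards [eventually_gt_atTop 0] with y hy
    exact ((cont_k a hy 2).smul hc).aestronglyMeasurable
  · filter_upwards [eventually_ge_atTop 1] with y hy
    refine ae_of_all _ fun t => ?_
    rw [norm_smul, mul_comm, mul_assoc]
    exact mul_le_mul (hB t) (norm_k2 a one_pos hy t) (norm_nonneg _)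
      ((norm_nonneg _).trans (hB t))
  · refine ae_of_all _ fun t => ?_
    rw [tendsto_zero_iff_norm_tendsto_zero]
    have h1 : Tendsto (fun y : ℝ => (y ^ 2)⁻¹ * B) atTop (𝓝 0) := by
      simpa using (tendsto_pow_atTop (two_ne_zero)).inv_tendsto_atTop.mul_const B
    refine squeeze_zero' (Eventually.of_forall fun _ => norm_nonneg _) ?_ h1
    filter_upwards [eventually_gt_atTop 0] with y hy
    rw [norm_smul, norm_inv, norm_pow]
    refine mul_le_mul ?_ (hB t) (norm_nonneg _) (by positivity)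
    exact inv_anti₀ (by positivity) (pow_le_pow_left₀ hy.le (le_norm_z a t) 2)

end P7ab

open P7ab in
theorem an_of_pos {E : Type v} [NormedAddCommGroup E] [InnerProductSpace ℂ E] [CompleteSpace E]
    (c c' : ℝ → E) (hd : ∀ t, HasDerivAt c (c' t) t) (hc' : Continuous c') (B : ℝ)
    (hB : ∀ t, ‖c t‖ ≤ B) (hB' : ∀ t, ‖c' t‖ ≤ B)
    (hpos : ∀ (s : Finset ℝ) (a : ℝ → ℂ),
      0 ≤ (inner ℂ (∑ t ∈ s, a t • c t) (∑ t ∈ s, a t • c' t) : ℂ).im) : An c := by
  intro w hw
  have hc : Continuous c := continuous_iff_continuousAt.mpr fun t => (hd t).continuousAt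
  set a := w.re with ha
  let F : ℝ → E := fun y => ∫ t, (z a y t ^ 2)⁻¹ • c t
  let F1 : ℝ → E := fun y => ∫ t, (z a y t ^ 2)⁻¹ • c' t
  have hcl : ∀ p ∈ (Submodule.span ℂ (Set.range fun t => (c t, c' t))).topologicalClosure,
      0 ≤ (inner ℂ p.1 p.2 : ℂ).im := by
    have hC : IsClosed {p : E × E | 0 ≤ (inner ℂ p.1 p.2 : ℂ).im} :=
      isClosed_le continuous_const (Complex.continuous_im.comp (by fun_prop))
    refine fun p hp => hC.closure_subset_iff.mpr (fun q hq => ?_) hp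
    obtain ⟨f, rfl⟩ := Finsupp.mem_span_range_iff_exists_finsupp.mp hq
    have := hpos f.support f
    simpa [Finsupp.sum, Prod.fst_sum, Prod.snd_sum] using this
  have hFF : ∀ y, 0 < y → 0 ≤ (inner ℂ (F y) (F1 y) : ℂ).im := by
    intro y hy
    have h1 := integrable_k2 a hy c hc B hB
    have h2 := integrable_k2 a hy c' hc' B hB'
    have h := integral_mem_closure (Submodule.span ℂ (Set.range fun t => (c t, c' t)))
      (fun t => ((z a y t ^ 2)⁻¹ • c t, (z a y t ^ 2)⁻¹ • c' t)) (h1.prodMk h2)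
      (fun t => Submodule.smul_mem _ (z a y t ^ 2)⁻¹
        (Submodule.subset_span (Set.mem_range_self (f := fun t => (c t, c' t)) t)))
    rw [integral_pair h1 h2] at h
    exact hcl _ h
  let N : ℝ → ℝ := fun y => (inner ℂ (F y) (F y) : ℂ).re
  have hN : ∀ y, 0 < y → HasDerivAt N (2 * (inner ℂ (F y) (F1 y) : ℂ).im) y := by
    intro y hy
    have h1 := hasDerivAt_F c c' hd hc' B hB hB' a hy
    have h2 := Complex.reCLM.hasFDerivAt.comp_hasDerivAt y (h1.inner ℂ h1)
    refine HasDerivAt.congr_deriv h2 ?_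
    change (inner ℂ (F y) ((-Complex.I) • F1 y) + inner ℂ ((-Complex.I) • F1 y) (F y) : ℂ).re = _
    rw [← inner_conj_symm ((-Complex.I) • F1 y) (F y), inner_smul_right]
    generalize (inner ℂ (F y) (F1 y) : ℂ) = q
    simp
    ring
  have hmono : MonotoneOn N (Set.Ioi 0) := by
    refine monotoneOn_of_hasDerivWithinAt_nonneg (convex_Ioi 0)
      (fun y hy => (hN y hy).continuousAt.continuousWithinAt)
      (fun y hy => (hN y (interior_subset hy)).hasDerivWithinAt) fun y hy => ?_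
    have := hFF y (interior_subset hy)
    linarith
  have hlim : Tendsto N atTop (𝓝 0) := by
    have h1 := tendsto_F c hc B hB a
    have h2 := (Complex.continuous_re.tendsto _).comp (h1.inner (𝕜 := ℂ) h1)
    rw [inner_zero_left, Complex.zero_re] at h2
    exact h2
  have hy : 0 < -w.im := by linarith
  have hle : N (-w.im) ≤ 0 := by
    refine ge_of_tendsto hlim ?_
    filter_upwards [eventually_ge_atTop (-w.im)] with y h
    exact hmono hy (lt_of_lt_of_le hy h) h
  have h0 : F (-w.im) = 0 := by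
    have h1 : N (-w.im) = ‖F (-w.im)‖ ^ 2 := inner_self_eq_norm_sq (𝕜 := ℂ) _
    rw [h1] at hle
    exact norm_eq_zero.mp (pow_eq_zero_iff two_ne_zero |>.mp (le_antisymm hle (sq_nonneg _)))
  have hz : ∀ t : ℝ, (t : ℂ) - w = z a (-w.im) t := fun t => by
    apply Complex.ext <;> simp [z, ha]
  simp only [hz]
  exact h0

theorem second_diff {E : Type v} [NormedAddCommGroup E] [NormedSpace ℝ E] [CompleteSpace E]
    (c : ℝ → E) (M r : ℝ) (hM : 0 ≤ M) (hr : 0 < r)
    (h1 : ∀ t, |t| ≤ r → ‖c t - c 0‖ ≤ M * |t|)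
    (h2 : ∀ s t, |s| ≤ r → |t| ≤ r → ‖c (s + t) - c s - c t + c 0‖ ≤ M * |s| * |t|) :
    ∃ v : E, ∀ t, |t| ≤ r → ‖c t - c 0 - t • v‖ ≤ M * t ^ 2 := by
  let a : ℝ → ℕ → E := fun t k => (2 ^ k : ℝ) • (c (t / 2 ^ k) - c 0)
  have habs : ∀ (t : ℝ) (k : ℕ), |t / 2 ^ k| = |t| / 2 ^ k := fun t k => by
    rw [abs_div, abs_of_pos (show (0 : ℝ) < 2 ^ k by positivity)]
  have hstep : ∀ t, |t| ≤ r → ∀ k, dist (a t k) (a t (k + 1)) ≤ M * t ^ 2 / 2 / 2 ^ k := by
    intro t ht k
    have hu : |t / 2 ^ (k + 1)| ≤ r := by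
      rw [habs]
      exact (div_le_self (abs_nonneg _) (one_le_pow₀ one_le_two)).trans ht
    have h := h2 _ _ hu hu
    have e1 : t / 2 ^ (k + 1) + t / 2 ^ (k + 1) = t / 2 ^ k := by field_simp; ring
    rw [e1, mul_assoc, abs_mul_abs_self] at h
    have e2 : a t k - a t (k + 1) =
        (2 ^ k : ℝ) • (c (t / 2 ^ k) - c (t / 2 ^ (k + 1)) - c (t / 2 ^ (k + 1)) + c 0) := by
      simp only [a, pow_succ]
      module
    rw [dist_eq_norm, e2, norm_smul, Real.norm_eq_abs, abs_of_pos (by positivity)]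
    refine (mul_le_mul_of_nonneg_left h (by positivity)).trans ?_
    have e3 : (2 : ℝ) ^ k * (M * (t / 2 ^ (k + 1) * (t / 2 ^ (k + 1)))) =
        M * t ^ 2 / 4 / 2 ^ k := by field_simp; ring
    rw [e3]
    have : 0 ≤ M * t ^ 2 := by positivity
    gcongr
    norm_num
  have hev : ∀ t : ℝ, ∀ᶠ k : ℕ in atTop, |t / 2 ^ k| ≤ r := fun t => by
    have : Tendsto (fun k : ℕ => |t| / 2 ^ k) atTop (𝓝 0) :=
      tendsto_const_nhds.div_atTop (tendsto_pow_atTop_atTop_of_one_lt one_lt_two)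
    filter_upwards [this.eventually (ge_mem_nhds hr)] with k hk
    rwa [habs]
  have hex : ∀ t, ∃ v, Tendsto (a t) atTop (𝓝 v) := by
    intro t
    obtain ⟨N, hN⟩ := (hev t).exists
    obtain ⟨v, hv⟩ := cauchySeq_tendsto_of_complete (cauchySeq_of_le_geometric_two (hstep _ hN))
    refine ⟨(2 ^ N : ℝ) • v, (tendsto_add_atTop_iff_nat N).mp ?_⟩
    refine (hv.const_smul (2 ^ N : ℝ)).congr fun k => ?_
    simp only [a, smul_smul, div_div]
    rw [pow_add, mul_comm ((2 : ℝ) ^ k)]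
  choose V hV using hex
  have hadd : ∀ s t, V (s + t) = V s + V t := by
    intro s t
    have h3 : Tendsto (fun k => a (s + t) k - a s k - a t k) atTop (𝓝 (V (s + t) - V s - V t)) :=
      ((hV _).sub (hV _)).sub (hV _)
    have h4 : Tendsto (fun k => a (s + t) k - a s k - a t k) atTop (𝓝 0) := by
      rw [tendsto_zero_iff_norm_tendsto_zero]
      have h5 : Tendsto (fun k : ℕ => M * |s| * |t| / 2 ^ k) atTop (𝓝 0) :=
        tendsto_const_nhds.div_atTop (tendsto_pow_atTop_atTop_of_one_lt one_lt_two)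
      refine squeeze_zero' (Eventually.of_forall fun _ => norm_nonneg _) ?_ h5
      filter_upwards [hev s, hev t] with k hs ht
      have h := h2 _ _ hs ht
      rw [← add_div, habs, habs] at h
      have e2 : a (s + t) k - a s k - a t k =
          (2 ^ k : ℝ) • (c ((s + t) / 2 ^ k) - c (s / 2 ^ k) - c (t / 2 ^ k) + c 0) := by
        simp only [a]
        module
      rw [e2, norm_smul, Real.norm_eq_abs, abs_of_pos (by positivity)]
      refine (mul_le_mul_of_nonneg_left h (by positivity)).trans (le_of_eq ?_)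
      field_simp
    have := tendsto_nhds_unique h3 h4
    rw [sub_sub, sub_eq_zero] at this
    exact this
  have hbd : ∀ t, ‖V t‖ ≤ M * |t| := by
    intro t
    refine le_of_tendsto (hV t).norm ?_
    filter_upwards [hev t] with k hk
    have h := h1 _ hk
    rw [habs] at h
    simp only [a]
    rw [norm_smul, Real.norm_eq_abs, abs_of_pos (by positivity)]
    refine (mul_le_mul_of_nonneg_left h (by positivity)).trans (le_of_eq ?_)
    field_simp
  let W : ℝ →+ E := AddMonoidHom.mk' V hadd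
  have hW : Continuous W := AddMonoidHomClass.continuous_of_bound W M hbd
  refine ⟨V 1, fun t ht => ?_⟩
  have hlin : V t = t • V 1 := by
    have := map_real_smul W hW t 1
    simpa [W] using this
  have h := dist_le_of_le_geometric_two_of_tendsto₀ (hstep t ht) (hV t)
  rw [dist_eq_norm, hlin] at h
  simpa [a] using h

end Pool.Agent.H754Z.TA
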